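import Pool.Agent.Lib.MP_a1cc03_ag.AC.H1

/-!
# Additivity in the point for a set of admissible points

The set `Adm` of admissible points is not assumed to be a subgroup.
-/

noncomputable section

namespace Pool.Agent.ZC.AU

open WeierstrassCurve ComplexConjugate AC

variable {R : Type} [CommRing R] {K : Type} [Field K] [DecidableEq K] {ι : Type} [DecidableEq ι]
  (E : ι → WeierstrassCurve K) [∀ i, Module R (E i).toAffine.Point] {n e : ℕ} (j : Fin n → ι)
  (κ : Fin e → ι)

/-- Apply `hprod` to `z = [b + (x + y)] - [b + x] - [b + y] + [b]` and the homomorphism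
`abTranslates E j κ M`. -/
theorem abCycle_additive (Adm : Set (∀ k, (E (j k)).toAffine.Point))
    (b : ∀ k, (E (j k)).toAffine.Point)
    (hprod : ∀ z : FreeAbelianGroup (∀ k, (E (j k)).toAffine.Point),
        z ∈ AddSubgroup.closure (FreeAbelianGroup.of '' {x | x - b ∈ Adm}) →
        degree (fun k => E (j k)) z = 0 → albanese (fun k => E (j k)) z = 0 →
        ∃ N : ℕ, 0 < N ∧ N • z ∈ RatEqPi (fun k => E (j k)))
    (h0 : (0 : ∀ k, (E (j k)).toAffine.Point) ∈ Adm)
    (M : Fin e → Fin n → R) (x y : ∀ k, (E (j k)).toAffine.Point)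
    (hx : x ∈ Adm) (hy : y ∈ Adm) (hxy : x + y ∈ Adm) :
    ∃ N : ℕ, 0 < N ∧ N • (abCycle E j κ M (b + (x + y)) - abCycle E j κ M (b + x)
      - abCycle E j κ M (b + y) + abCycle E j κ M b) ∈ RatAb R E j κ := by
  have hmem : ∀ x ∈ Adm,
      FreeAbelianGroup.of (b + x) ∈
        AddSubgroup.closure (FreeAbelianGroup.of '' {x | x - b ∈ Adm}) :=
    fun x hx => AddSubgroup.subset_closure ⟨b + x, by
      change b + x - b ∈ Adm
      rwa [add_sub_cancel_left], rfl⟩
  have hb : FreeAbelianGroup.of b ∈
      AddSubgroup.closure (FreeAbelianGroup.of '' {x | x - b ∈ Adm}) := by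
    have h := hmem 0 h0
    rwa [add_zero] at h
  obtain ⟨N, hN, h⟩ := hprod
    (FreeAbelianGroup.of (b + (x + y)) - FreeAbelianGroup.of (b + x) - FreeAbelianGroup.of (b + y)
      + FreeAbelianGroup.of b)
    (add_mem (sub_mem (sub_mem (hmem _ hxy) (hmem x hx)) (hmem y hy)) hb)
    (by simp [degree]) (by simp [albanese])
  refine ⟨N, hN, ?_⟩
  have h1 := AddSubgroup.subset_closure (IsAbRel.translates (R := R) (E := E) (j := j) (κ := κ) M _ h)
  have h2 : abTranslates E j κ M (N • (FreeAbelianGroup.of (b + (x + y)) - FreeAbelianGroup.of (b + x)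
      - FreeAbelianGroup.of (b + y) + FreeAbelianGroup.of b))
      = N • (abCycle E j κ M (b + (x + y)) - abCycle E j κ M (b + x) - abCycle E j κ M (b + y)
        + abCycle E j κ M b) := by
    simp [abTranslates]
  rw [h2] at h1
  exact h1

variable {U : Type} [AddCommGroup U] [Module ℂ U]
  (q : FreeAbelianGroup (Set (∀ k, (E (j k)).toAffine.Point)) →+ U)

/-- `f₁ M v x = q [M; b + v ⊗ x] - q [M; b]`. -/
theorem exists_pointed (θ : ι → R →+* ℂ) (hE : ∀ i, IsEndRing (E i) (θ i))
    (hs : ∀ i (r : R), θ i r ≠ 0 → Function.Surjective (fun P : (E i).toAffine.Point => r • P))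
    (hq : ∀ z ∈ RatAb R E j κ, q z = 0)
    (Adm : Set (∀ k, (E (j k)).toAffine.Point))
    (hA : ∀ i (v : Fin n → R) (x : (E i).toAffine.Point), h1pt E j i v x ∈ Adm)
    (b : ∀ k, (E (j k)).toAffine.Point)
    (hadd : ∀ (M : Fin e → Fin n → R) (x y : ∀ k, (E (j k)).toAffine.Point),
      x ∈ Adm → y ∈ Adm → x + y ∈ Adm →
      q (abCycle E j κ M (b + (x + y))) - q (abCycle E j κ M b)
        = (q (abCycle E j κ M (b + x)) - q (abCycle E j κ M b))
          + (q (abCycle E j κ M (b + y)) - q (abCycle E j κ M b))) (i : ι) :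
    ∃ f₁ : (Fin e → Fin n → R) →
        ((Fin n → R) →+ ((⊤ : AddSubgroup (E i).toAffine.Point) →+ U)),
      (∀ M v (x : (⊤ : AddSubgroup (E i).toAffine.Point)), f₁ M v x
        = q (abCycle E j κ M (b + h1pt E j i v (x : (E i).toAffine.Point)))
          - q (abCycle E j κ M b)) ∧
      Inv θ κ f₁ ∧
      (∀ (M : Fin e → Fin n → R) (c : Fin e), κ c = i → f₁ M (M c) = 0) ∧
      (∀ (M : Fin e → Fin n → R) (r : R) (v : Fin n → R), θ i r = 0 → f₁ M (r • v) = 0) := by
  refine ⟨fun M => AddMonoidHom.mk' (fun v => AddMonoidHom.mk'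
      (fun x : (⊤ : AddSubgroup (E i).toAffine.Point) =>
      q (abCycle E j κ M (b + h1pt E j i v (x : (E i).toAffine.Point)))
        - q (abCycle E j κ M b)) ?_) ?_, ?_, ?_, ?_, ?_⟩
  · intro x y
    have h := hadd M (h1pt E j i v x) (h1pt E j i v y) (hA i v x) (hA i v y) (by
      rw [← h1pt_add_right]
      exact hA i v _)
    rw [← h1pt_add_right] at h
    exact h
  · intro v w
    ext x
    have h := hadd M (h1pt E j i v x) (h1pt E j i w x) (hA i v x) (hA i w x) (by
      rw [← h1pt_add_left]
      exact hA i _ _)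
    rw [← h1pt_add_left] at h
    exact h
  · intro M v x
    rfl
  · have hI := fun a => class_inv E j κ q θ hE hs hq a
    refine ⟨?_, ?_, ?_, ?_⟩
    · intro M c u v
      refine AddMonoidHom.ext fun w => AddMonoidHom.ext fun x => ?_
      have h1 := (hI (b + h1pt E j i w (x : (E i).toAffine.Point))).mq M c u v
      have h2 := (hI b).mq M c u v
      beta_reduce at h1 h2
      change (q (abCycle E j κ (Function.update M c (u + v)) (b + h1pt E j i w x))
          - q (abCycle E j κ (Function.update M c (u + v)) b))
        + (q (abCycle E j κ (Function.update M c (u - v)) (b + h1pt E j i w x))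
          - q (abCycle E j κ (Function.update M c (u - v)) b))
        = 2 • (q (abCycle E j κ (Function.update M c u) (b + h1pt E j i w x))
          - q (abCycle E j κ (Function.update M c u) b))
        + 2 • (q (abCycle E j κ (Function.update M c v) (b + h1pt E j i w x))
          - q (abCycle E j κ (Function.update M c v) b))
      rw [sub_add_sub_comm, h1, h2, smul_sub, smul_sub, sub_add_sub_comm]
    · intro M c c' hcc hκ
      refine AddMonoidHom.ext fun v => AddMonoidHom.ext fun x => ?_
      have h1 := (hI (b + h1pt E j i v (x : (E i).toAffine.Point))).add M c c' hcc hκ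
      have h2 := (hI b).add M c c' hcc hκ
      exact congrArg₂ (· - ·) h1 h2
    · intro M c r u hr
      refine AddMonoidHom.ext fun v => AddMonoidHom.ext fun x => ?_
      have h1 := (hI (b + h1pt E j i v (x : (E i).toAffine.Point))).nul M c r u hr
      have h2 := (hI b).nul M c r u hr
      exact congrArg₂ (· - ·) h1 h2
    · intro c r
      by_cases hr : θ (κ c) r = 0
      · refine ⟨0, fun M => ?_⟩
        refine AddMonoidHom.ext fun v => AddMonoidHom.ext fun x => ?_
        have key : ∀ a, q (abCycle E j κ (Function.update M c (r • M c)) a) = 0 := by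
          intro a
          have h1 := abCycle_nul E j κ (Function.update M c 0) c r ((hE _).faithful r hr) (M c) a
          rw [Function.update_self, zero_add, Function.update_idem] at h1
          rw [h1]
          exact mq_zero _ (class_multiQuad E j κ q hq a) M c
        change q (abCycle E j κ (Function.update M c (r • M c)) (b + h1pt E j i v x))
          - q (abCycle E j κ (Function.update M c (r • M c)) b) = _
        rw [key, key, zero_smul, sub_zero]
        rfl
      · refine ⟨Nat.card (DistribSMul.toAddMonoidHom (E (κ c)).toAffine.Point r).ker, fun M => ?_⟩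
        refine AddMonoidHom.ext fun v => AddMonoidHom.ext fun x => ?_
        change q (abCycle E j κ (Function.update M c (r • M c)) (b + h1pt E j i v x))
          - q (abCycle E j κ (Function.update M c (r • M c)) b)
          = Nat.card (DistribSMul.toAddMonoidHom (E (κ c)).toAffine.Point r).ker •
            (q (abCycle E j κ M (b + h1pt E j i v x)) - q (abCycle E j κ M b))
        rw [abCycle_smul E j κ M c r (hs _ r hr), abCycle_smul E j κ M c r (hs _ r hr), map_nsmul,
          map_nsmul, smul_sub]
  · intro M c hκ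
    ext x
    change q (abCycle E j κ M (b + h1pt E j i (M c) (x : (E i).toAffine.Point)))
      - q (abCycle E j κ M b) = 0
    subst hκ
    have h1 := abCycle_translate E j κ M b (Pi.single c (x : (E (κ c)).toAffine.Point))
    have h2 : abMap E j κ M (Pi.single c (x : (E (κ c)).toAffine.Point))
        = h1pt E j (κ c) (M c) (x : (E (κ c)).toAffine.Point) := by
      funext k
      rw [l1_apply, Finset.sum_eq_single_of_mem c (Finset.mem_univ c)]
      · rw [Pi.single_eq_same]
        rfl
      · intro d _ hd
        rw [Pi.single_eq_of_ne hd, Pi.single_zero, Pi.zero_apply, smul_zero]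
    rw [h2, add_comm] at h1
    rw [h1, sub_self]
  · intro M r v hr
    refine AddMonoidHom.ext fun x => ?_
    change q (abCycle E j κ M (b + h1pt E j i (r • v) (x : (E i).toAffine.Point)))
      - q (abCycle E j κ M b) = 0
    rw [h1pt_smul, (hE i).faithful r hr]
    have h3 : h1pt E j i v (0 : (E i).toAffine.Point) = 0 := by
      funext k
      simp only [h1pt, Pi.single_zero, Pi.zero_apply, smul_zero]
    rw [h3, add_zero, sub_self]

omit [Module ℂ U] in
/-- `x = ∑ k, Pi.single k (x k)`; induction over a finset of indices `k`. -/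
theorem pointed_sum (Adm : Set (∀ k, (E (j k)).toAffine.Point))
    (b : ∀ k, (E (j k)).toAffine.Point)
    (hadd : ∀ (M : Fin e → Fin n → R) (x y : ∀ k, (E (j k)).toAffine.Point),
      x ∈ Adm → y ∈ Adm → x + y ∈ Adm →
      q (abCycle E j κ M (b + (x + y))) - q (abCycle E j κ M b)
        = (q (abCycle E j κ M (b + x)) - q (abCycle E j κ M b))
          + (q (abCycle E j κ M (b + y)) - q (abCycle E j κ M b)))
    (M : Fin e → Fin n → R) (a : ∀ k, (E (j k)).toAffine.Point)
    (ha : ∀ s : Finset (Fin n), ∑ k ∈ s, Pi.single k (a k) ∈ Adm) :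
    q (abCycle E j κ M (b + a)) - q (abCycle E j κ M b)
      = ∑ k, (q (abCycle E j κ M (b + Pi.single k (a k))) - q (abCycle E j κ M b)) := by
  have key : ∀ s : Finset (Fin n),
      q (abCycle E j κ M (b + ∑ k ∈ s, Pi.single k (a k))) - q (abCycle E j κ M b)
        = ∑ k ∈ s, (q (abCycle E j κ M (b + Pi.single k (a k))) - q (abCycle E j κ M b)) := by
    intro s
    induction s using Finset.induction_on with
    | empty => rw [Finset.sum_empty, Finset.sum_empty, add_zero, sub_self]
    | insert k s hk ih =>
      rw [Finset.sum_insert hk, Finset.sum_insert hk, ← ih]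
      refine hadd M _ _ ?_ (ha s) ?_
      · have h := ha {k}
        rwa [Finset.sum_singleton] at h
      · have h := ha (insert k s)
        rwa [Finset.sum_insert hk] at h
  have h := key Finset.univ
  rw [Finset.univ_sum_single] at h
  exact h

end Pool.Agent.ZC.AU
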