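import Pool.Agent.Lib.MP_a1cc03_ag.QH.Quot

/-!
# Zero-cycles supported on points of a union of systems of subgroups

The splitting of a point of a product of elliptic curves into points on the axes uses only that the
coordinates of this point are pairwise related, so points which belong to different systems of subgroups
can be mixed.
-/

noncomputable section

namespace Pool.Agent.ZC.AU

open WeierstrassCurve

section General

variable {K : Type} [Field K] [IsAlgClosed K] [CharZero K] [DecidableEq K] {n : ℕ}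

/-- Zero-cycles of degree zero and sum zero supported on points `x` such that the coordinates of `x - c` are
pairwise related. -/
theorem product_pairs (W : Fin n → WeierstrassCurve K) [∀ i, (W i).IsElliptic]
    (c : ∀ i, (W i).toAffine.Point) (S : Set (∀ k, (W k).toAffine.Point))
    (hS : ∀ x ∈ S, ∀ k k', k ≠ k' → TorsSym (W k) (W k') (x k - c k) (x k' - c k'))
    (z : FreeAbelianGroup (∀ k, (W k).toAffine.Point))
    (hz : z ∈ AddSubgroup.closure (FreeAbelianGroup.of '' S))
    (hdeg : degree W z = 0) (halb : albanese W z = 0) : z ∈ TorsPi W := by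
  choose η hη using sh_hom W c
  set π := QuotientAddGroup.mk' (RatEqPi W) with hπ
  have hkey : ∀ z ∈ AddSubgroup.closure (FreeAbelianGroup.of '' S),
      ∃ t ∈ TorsPi W, π z = (∑ k, η k (albanese W z k - degree W z • c k))
        + degree W z • π (FreeAbelianGroup.of c) + π t := by
    intro z hz
    induction hz using AddSubgroup.closure_induction with
    | mem z hz =>
      obtain ⟨x, hx, rfl⟩ := hz
      have hs := sh_split W c (x - c) (fun k k' hk => hS x hx k k' hk)
      refine ⟨_, hs, ?_⟩
      have h1 : albanese W (FreeAbelianGroup.of x) = x := FreeAbelianGroup.lift_apply_of _ _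
      have h2 : degree W (FreeAbelianGroup.of x) = 1 := FreeAbelianGroup.lift_apply_of _ _
      rw [h1, h2, one_smul, map_sub, map_sub, map_sum, add_sub_cancel]
      simp only [hη, one_smul, Pi.sub_apply]
      abel
    | zero =>
      refine ⟨0, zero_mem _, ?_⟩
      simp
    | add z z' _ _ hz hz' =>
      obtain ⟨t, ht, e⟩ := hz
      obtain ⟨t', ht', e'⟩ := hz'
      refine ⟨t + t', add_mem ht ht', ?_⟩
      have e2 : ∀ k, albanese W (z + z') k - degree W (z + z') • c k =
          (albanese W z k - degree W z • c k) + (albanese W z' k - degree W z' • c k) := by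
        intro k
        rw [map_add (albanese W), map_add (degree W), Pi.add_apply, add_smul]
        abel
      simp only [e2]
      rw [map_add, e, e', map_add (degree W), map_add π, add_smul]
      simp only [map_add, Finset.sum_add_distrib]
      abel
    | neg z _ hz =>
      obtain ⟨t, ht, e⟩ := hz
      refine ⟨-t, neg_mem ht, ?_⟩
      have e2 : ∀ k, albanese W (-z) k - degree W (-z) • c k =
          -(albanese W z k - degree W z • c k) := by
        intro k
        rw [map_neg (albanese W), map_neg (degree W), Pi.neg_apply, neg_smul]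
        abel
      simp only [e2]
      rw [map_neg, e, map_neg (degree W), map_neg π, neg_smul]
      simp only [map_neg, Finset.sum_neg_distrib]
      abel
  obtain ⟨t, ht, e⟩ := hkey z hz
  rw [hdeg, halb, zero_smul] at e
  simp only [Pi.zero_apply, zero_smul, sub_zero, map_zero, Finset.sum_const_zero, zero_add] at e
  rw [← sub_eq_zero, ← map_sub, hπ, QuotientAddGroup.mk'_apply, QuotientAddGroup.eq_zero_iff] at e
  have h2 := add_mem (RatEqPi_le_TorsPi W e) ht
  rwa [sub_add_cancel] at h2

end General

/-- Families with `p`-integral `j`-invariants: a set of systems of subgroups which contain all points. -/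
theorem main_product_union [DecidableEq (AlgebraicClosure ℚ)] {p : ℕ} (hp : p.Prime) (hp2 : p ≠ 2)
    {ι : Type} (E : ι → WeierstrassCurve (AlgebraicClosure ℚ)) [∀ i, (E i).IsElliptic]
    (hj : ∀ i, PIntegral p (E i).j) :
    ∃ T : Set (∀ i, AddSubgroup (E i).toAffine.Point),
      (∀ i (P : (E i).toAffine.Point), ∃ A ∈ T, P ∈ A i) ∧
      (∀ A ∈ T, (∀ i, ∃ u : ℕ → A i, LinearIndependent ℤ u) ∧
        (∀ i (a : (E i).toAffine.Point) (m : ℕ), 0 < m → m • a ∈ A i → a ∈ A i) ∧
        (∀ i i' (φ : (E i).toAffine.Point →+ (E i').toAffine.Point), IsHom (E i) (E i') φ →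
          ∀ a ∈ A i, φ a ∈ A i')) ∧
      ∀ (n : ℕ) (j : Fin n → ι) (c : ∀ k, (E (j k)).toAffine.Point)
        (z : FreeAbelianGroup (∀ k, (E (j k)).toAffine.Point)),
        z ∈ AddSubgroup.closure
          (FreeAbelianGroup.of '' {x | ∃ A ∈ T, ∀ k, x k - c k ∈ A (j k)}) →
        degree (fun k => E (j k)) z = 0 → albanese (fun k => E (j k)) z = 0 →
        ∃ N : ℕ, 0 < N ∧ N • z ∈ RatEqPi (fun k => E (j k)) := by
  refine ⟨{A | (∀ i, ∃ u : ℕ → A i, LinearIndependent ℤ u) ∧
    (∀ i (a : (E i).toAffine.Point) (m : ℕ), 0 < m → m • a ∈ A i → a ∈ A i) ∧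
    (∀ i i' (φ : (E i).toAffine.Point →+ (E i').toAffine.Point), IsHom (E i) (E i') φ →
      ∀ a ∈ A i, φ a ∈ A i') ∧
    ∀ i i', ∀ a ∈ A i, ∀ b ∈ A i', TorsSym (E i) (E i') a b}, fun i₀ P => ?_,
    fun A hA => ⟨hA.1, hA.2.1, hA.2.2.1⟩, fun n j c z hz hdeg halb => ?_⟩
  · obtain ⟨A, hP, hsat, hrk, htors⟩ := general_family_p hp hp2 E hj i₀ P
    obtain ⟨A', hle, hsat', hcl, htors'⟩ := hom_family E A htors
    refine ⟨A', ⟨fun i => ?_, hsat', hcl, htors'⟩, hle i₀ hP⟩
    obtain ⟨u, hu⟩ := hrk i
    refine ⟨fun m => ⟨u m, hle i (u m).2⟩, ?_⟩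
    exact hu.map' (AddSubgroup.inclusion (hle i)).toIntLinearMap
      (LinearMap.ker_eq_bot.2 (AddSubgroup.inclusion_injective (hle i)))
  · refine product_pairs (fun k => E (j k)) c _ ?_ z hz hdeg halb
    rintro x ⟨A, hA, hx⟩ k k' _
    exact hA.2.2.2 (j k) (j k') _ (hx k) _ (hx k')

section Quotients

variable {K : Type} [Field K] [DecidableEq K] {ι : Type} [DecidableEq ι]
  (E : ι → WeierstrassCurve K) {n : ℕ} (j : Fin n → ι)

/-- Zero-cycles on quotients. -/
theorem quotient_union {G : Type} [Group G] [Fintype G] [MulAction G (∀ k, (E (j k)).toAffine.Point)]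
    (T : Set (∀ i, AddSubgroup (E i).toAffine.Point))
    (c : ∀ k, (E (j k)).toAffine.Point)
    (hprod : ∀ z : FreeAbelianGroup (∀ k, (E (j k)).toAffine.Point),
        z ∈ AddSubgroup.closure
          (FreeAbelianGroup.of '' {x | ∃ A ∈ T, ∀ k, x k - c k ∈ A (j k)}) →
        degree (fun k => E (j k)) z = 0 → albanese (fun k => E (j k)) z = 0 →
        ∃ N : ℕ, 0 < N ∧ N • z ∈ RatEqPi (fun k => E (j k)))
    (R : G → ∀ l k, (E (j l)).toAffine.Point →+ (E (j k)).toAffine.Point)
    (t : G → ∀ k, (E (j k)).toAffine.Point)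
    (hG : ∀ (g : G) (x : ∀ k, (E (j k)).toAffine.Point) (k : Fin n),
      (g • x) k = ∑ l, R g l k (x l) + t g k)
    (z : FreeAbelianGroup (∀ k, (E (j k)).toAffine.Point))
    (hz : z ∈ AddSubgroup.closure
      (FreeAbelianGroup.of '' {x | ∀ g : G, ∃ A ∈ T, ∀ k, (g • x) k - c k ∈ A (j k)}))
    (hdeg : degree (fun k => E (j k)) z = 0)
    (halb : ∃ N : ℕ, 0 < N ∧ ∀ k, N • ∑ g, ∑ l, R g l k (albanese (fun k => E (j k)) z l) = 0) :
    ∃ N : ℕ, 0 < N ∧ N • z ∈ RatEqPi (fun k => E (j k)) ⊔ PointRel E j G := by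
  classical
  obtain ⟨N₀, hN₀, halb⟩ := halb
  set w : FreeAbelianGroup (∀ k, (E (j k)).toAffine.Point) :=
    ∑ g : G, FreeAbelianGroup.map (fun x => g • x) z with hw
  have hmem : ∀ g : G, FreeAbelianGroup.map (fun x => g • x) z ∈
      AddSubgroup.closure (FreeAbelianGroup.of '' {x | ∃ A ∈ T, ∀ k, x k - c k ∈ A (j k)}) := by
    intro g
    have h1 := AddSubgroup.mem_map_of_mem (FreeAbelianGroup.map fun x => g • x) hz
    rw [AddMonoidHom.map_closure] at h1
    refine AddSubgroup.closure_mono ?_ h1
    rintro _ ⟨_, ⟨x, hx, rfl⟩, rfl⟩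
    rw [FreeAbelianGroup.map_of_apply]
    exact ⟨g • x, hx g, rfl⟩
  have hdegg : ∀ (g : G) (y : FreeAbelianGroup (∀ k, (E (j k)).toAffine.Point)),
      degree (fun k => E (j k)) (FreeAbelianGroup.map (fun x => g • x) y)
        = degree (fun k => E (j k)) y := by
    intro g y
    induction y using FreeAbelianGroup.induction_on with
    | zero => simp
    | of x => rw [FreeAbelianGroup.map_of_apply]; simp [degree]
    | neg x h => rw [map_neg, map_neg, map_neg, h]
    | add x y hx hy => rw [map_add, map_add, map_add, hx, hy]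
  have halbg : ∀ (g : G) (y : FreeAbelianGroup (∀ k, (E (j k)).toAffine.Point)) (k : Fin n),
      albanese (fun k => E (j k)) (FreeAbelianGroup.map (fun x => g • x) y) k
        = ∑ l, R g l k (albanese (fun k => E (j k)) y l) + degree (fun k => E (j k)) y • t g k := by
    intro g y k
    induction y using FreeAbelianGroup.induction_on with
    | zero => simp
    | of x =>
      rw [FreeAbelianGroup.map_of_apply]
      simp only [albanese, degree, FreeAbelianGroup.lift_apply_of]
      rw [hG, one_smul]
    | neg x h =>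
      simp only [map_neg, Pi.neg_apply, h, Finset.sum_neg_distrib, neg_smul, neg_add]
    | add x y hx hy =>
      simp only [map_add, Pi.add_apply, hx, hy, Finset.sum_add_distrib, add_smul]
      abel
  obtain ⟨N, hN, h⟩ := hprod (N₀ • w) (nsmul_mem (sum_mem fun g _ => hmem g) _)
    (by rw [map_nsmul, hw, map_sum]
        simp only [hdegg, hdeg, Finset.sum_const_zero, smul_zero])
    (by
      funext k
      rw [map_nsmul, hw, map_sum, Pi.smul_apply, Finset.sum_apply]
      simp only [halbg, hdeg, zero_smul, add_zero]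
      exact halb k)
  refine ⟨N * N₀ * Fintype.card G, Nat.mul_pos (Nat.mul_pos hN hN₀) Fintype.card_pos, ?_⟩
  have hsplit : (N * N₀ * Fintype.card G) • z
      = N • (N₀ • w) + (N * N₀) • ∑ g : G, (z - FreeAbelianGroup.map (fun x => g • x) z) := by
    rw [Finset.sum_sub_distrib, Finset.sum_const, Finset.card_univ, ← hw, smul_smul, ← smul_add,
      add_sub_cancel, smul_smul]
  rw [hsplit]
  exact add_mem (AddSubgroup.mem_sup_left h) (AddSubgroup.mem_sup_right
    (nsmul_mem (sum_mem fun g _ => LC.point_sub_map_mem E j g z) _))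

end Quotients

end Pool.Agent.ZC.AU
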