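import Pool.Agent.Lib.MP_a1cc03_ag.AU.Mixed
import Pool.Agent.Lib.MP_a1cc03_ag.AU.Prod
import Pool.Agent.Lib.MP_a1cc03_ag.AC.Final

/-! # Abelian subvarieties on quotients of products of elliptic curves, for a set of systems of subgroups -/

noncomputable section

namespace Pool.Agent.ZC.AU

open WeierstrassCurve ComplexConjugate AC

variable {R : Type} [CommRing R] {K : Type} [Field K] [DecidableEq K] {ι : Type} [DecidableEq ι]
  (E : ι → WeierstrassCurve K) [∀ i, Module R (E i).toAffine.Point] {n e : ℕ} (j : Fin n → ι)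

variable {G : Type} [Group G] [MulAction G (∀ k, (E (j k)).toAffine.Point)]

/-- The main theorem for quotients: if the class and the Abel-Jacobi image of the sum of all `g z` are
torsion, then `z` is torsion modulo `RatAb` and the cycles `[Z] - [gZ]`. -/
theorem main_quotient [Fintype G] (θ : ι → R →+* ℂ) (hE : ∀ i, IsEndRing (E i) (θ i))
    (hs : ∀ i (r : R), θ i r ≠ 0 → Function.Surjective (fun P : (E i).toAffine.Point => r • P))
    (Adm : Set (∀ k, (E (j k)).toAffine.Point))
    (h0 : (0 : ∀ k, (E (j k)).toAffine.Point) ∈ Adm)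
    (hA : ∀ i (v : Fin n → R) (x : (E i).toAffine.Point), h1pt E j i v x ∈ Adm)
    (hAs : ∀ a ∈ Adm, ∀ s : Finset (Fin n), ∑ k ∈ s, Pi.single k (a k) ∈ Adm)
    (b : ∀ k, (E (j k)).toAffine.Point)
    (hprod : ∀ z : FreeAbelianGroup (∀ k, (E (j k)).toAffine.Point),
        z ∈ AddSubgroup.closure (FreeAbelianGroup.of '' {x | x - b ∈ Adm}) →
        degree (fun k => E (j k)) z = 0 → albanese (fun k => E (j k)) z = 0 →
        ∃ N : ℕ, 0 < N ∧ N • z ∈ RatEqPi (fun k => E (j k)))
    (S : G → Fin n → Fin n → R) (t : G → ∀ k, (E (j k)).toAffine.Point)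
    (hS : ∀ g l k, j l ≠ j k → S g l k = 0)
    (hG : ∀ (g : G) (x : ∀ k, (E (j k)).toAffine.Point), g • x = abAff E j (S g) (t g) x)
    {m : ℕ} (κ : Fin m → Fin e → ι) (c : Fin m → ℤ) (M : Fin m → Fin e → Fin n → R)
    (a : Fin m → ∀ k, (E (j k)).toAffine.Point)
    (hM : ∀ s d k, κ s d ≠ j k → M s d k = 0) (ha : ∀ s (g : G), g • a s - b ∈ Adm)
    (hcl : ∀ I J : Fin e → Fin n, ∑ g, ∑ s, (c s : ℂ) * cminor (cmat θ j (abComp (S g) (M s))) I
      * conj (cminor (cmat θ j (abComp (S g) (M s))) J) = 0)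
    (hAJ : ∀ lam : ∀ i, (E i).toAffine.Point → ℂ, (∀ i, IsCoord ⊤ (θ i) (lam i)) →
      ∀ (J : Fin e → Fin n) (L : Fin (e + 1) → Fin n),
        ∑ g, ∑ s, (c s : ℂ) * conj (cminor (cmat θ j (abComp (S g) (M s))) J) *
          cpminor (cmat θ j (abComp (S g) (M s))) (fun k => lam (j k) ((g • a s) k - b k)) L = 0) :
    ∃ N : ℕ, 0 < N ∧ N • ∑ s, c s • abCycle E j (κ s) (M s) (a s) ∈
      (⨆ κ : Fin e → ι, RatAb R E j κ) ⊔ OrbitRel E j G := by
  classical
  let φ : Fin (Fintype.card (G × Fin m)) ≃ G × Fin m := (Fintype.equivFin (G × Fin m)).symm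
  have hsum : ∀ {B : Type} [AddCommMonoid B] (f : G → Fin m → B),
      ∑ q, f (φ q).1 (φ q).2 = ∑ g, ∑ s, f g s := by
    intro B _ f
    rw [Equiv.sum_comp φ (fun p : G × Fin m => f p.1 p.2), Fintype.sum_prod_type]
  obtain ⟨N, hN, hmem⟩ := main_mixed E j θ hE hs Adm h0 hA hAs b hprod (fun q => κ (φ q).2)
    (fun q => c (φ q).2)
    (fun q => abComp (S (φ q).1) (M (φ q).2)) (fun q => (φ q).1 • a (φ q).2 - b)
    (by
      intro q d k h
      change ∑ l, M (φ q).2 d l * S (φ q).1 l k = 0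
      refine Finset.sum_eq_zero fun l _ => ?_
      by_cases hl : j l = j k
      · rw [hM _ d l (by rw [hl]; exact h), zero_mul]
      · rw [hS _ l k hl, mul_zero])
    (fun q => ha _ _)
    (by
      intro I J
      have := hcl I J
      rwa [← hsum (fun g s => (c s : ℂ) * cminor (cmat θ j (abComp (S g) (M s))) I
        * conj (cminor (cmat θ j (abComp (S g) (M s))) J))] at this)
    (by
      intro lam hlam J L
      have := hAJ lam hlam J L
      rwa [← hsum (fun g s => (c s : ℂ) * conj (cminor (cmat θ j (abComp (S g) (M s))) J) *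
          cpminor (cmat θ j (abComp (S g) (M s))) (fun k => lam (j k) ((g • a s) k - b k)) L)] at this)
  simp only [add_sub_cancel] at hmem
  rw [hsum (fun g s => c s • abCycle E j (κ s) (abComp (S g) (M s)) (g • a s))] at hmem
  set z := ∑ s, c s • abCycle E j (κ s) (M s) (a s) with hz
  have hgz : ∀ g : G, ∑ s, c s • abCycle E j (κ s) (abComp (S g) (M s)) (g • a s)
      = FreeAbelianGroup.map (fun Z => (fun x => g • x) '' Z) z := by
    intro g
    rw [hz, map_sum]
    refine Finset.sum_congr rfl fun s _ => ?_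
    rw [map_zsmul, abCycle_act E j (κ s) (hS g) (hG g)]
  simp only [hgz] at hmem
  have hcard : 0 < Fintype.card G := Fintype.card_pos
  refine ⟨N * Fintype.card G, Nat.mul_pos hN hcard, ?_⟩
  have hsplit : (N * Fintype.card G) • z
      = N • ∑ g : G, FreeAbelianGroup.map (fun Z => (fun x => g • x) '' Z) z
        + N • ∑ g : G, (z - FreeAbelianGroup.map (fun Z => (fun x => g • x) '' Z) z) := by
    rw [Finset.sum_sub_distrib, Finset.sum_const, Finset.card_univ, ← smul_add, add_sub_cancel, smul_smul]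
  rw [hsplit]
  refine add_mem (AddSubgroup.mem_sup_left hmem) (AddSubgroup.mem_sup_right ?_)
  exact nsmul_mem (sum_mem fun g _ => LC.sub_map_mem E j g z) _

/-- The final theorem on abelian subvarieties for families with `p`-integral `j`-invariants. -/
theorem main_final [DecidableEq (AlgebraicClosure ℚ)] {p : ℕ} (hp : p.Prime) (hp2 : p ≠ 2)
    {ι : Type} [DecidableEq ι] (E : ι → WeierstrassCurve (AlgebraicClosure ℚ))
    [∀ i, (E i).IsElliptic] (hj : ∀ i, PIntegral p (E i).j) :
    ∃ T : Set (∀ i, AddSubgroup (E i).toAffine.Point),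
      (∀ i (P : (E i).toAffine.Point), ∃ A ∈ T, P ∈ A i) ∧
      (∀ A ∈ T, (∀ i, ∃ u : ℕ → A i, LinearIndependent ℤ u) ∧
        (∀ i (a : (E i).toAffine.Point) (m : ℕ), 0 < m → m • a ∈ A i → a ∈ A i) ∧
        (∀ i i' (φ : (E i).toAffine.Point →+ (E i').toAffine.Point), IsHom (E i) (E i') φ →
          ∀ a ∈ A i, φ a ∈ A i')) ∧
      ∀ (R : Type) [CommRing R] [∀ i, Module R (E i).toAffine.Point] (θ : ι → R →+* ℂ),
        (∀ i, IsEndRing (E i) (θ i)) →
      ∀ (n : ℕ) (j : Fin n → ι) (G : Type) [Group G] [Fintype G]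
        [MulAction G (∀ k, (E (j k)).toAffine.Point)]
        (S : G → Fin n → Fin n → R) (t : G → ∀ k, (E (j k)).toAffine.Point),
        (∀ g l k, j l ≠ j k → S g l k = 0) →
        (∀ (g : G) (x : ∀ k, (E (j k)).toAffine.Point), g • x = abAff E j (S g) (t g) x) →
        ∀ (b : ∀ k, (E (j k)).toAffine.Point) (e m : ℕ) (κ : Fin m → Fin e → ι)
          (c : Fin m → ℤ) (M : Fin m → Fin e → Fin n → R)
          (a : Fin m → ∀ k, (E (j k)).toAffine.Point),
          (∀ s d k, κ s d ≠ j k → M s d k = 0) →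
          (∀ s (g : G), ∃ A ∈ T, ∀ k, (g • a s) k - b k ∈ A (j k)) →
          (∀ I J : Fin e → Fin n, ∑ g, ∑ s,
            (c s : ℂ) * cminor (cmat θ j (abComp (S g) (M s))) I
              * conj (cminor (cmat θ j (abComp (S g) (M s))) J) = 0) →
          (∀ lam : ∀ i, (E i).toAffine.Point → ℂ, (∀ i, IsCoord ⊤ (θ i) (lam i)) →
            ∀ (J : Fin e → Fin n) (L : Fin (e + 1) → Fin n), ∑ g, ∑ s,
              (c s : ℂ) * conj (cminor (cmat θ j (abComp (S g) (M s))) J) *
                cpminor (cmat θ j (abComp (S g) (M s)))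
                  (fun k => lam (j k) ((g • a s) k - b k)) L = 0) →
          ∃ N : ℕ, 0 < N ∧ N • ∑ s, c s • abCycle E j (κ s) (M s) (a s) ∈
            (⨆ κ : Fin e → ι, RatAb R E j κ) ⊔ OrbitRel E j G := by
  obtain ⟨T, hcov, hT, hprod⟩ := main_product_union hp hp2 E hj
  refine ⟨T, hcov, hT, fun R _ _ θ hE n j G _ _ _ S t hS hG b e m κ c M a hM ha
    h1 h2 => ?_⟩
  by_cases hne : T.Nonempty
  · have hs : ∀ i (r : R), θ i r ≠ 0 →
        Function.Surjective (fun P : (E i).toAffine.Point => r • P) := by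
      intro i r hr
      obtain ⟨A, hA⟩ := hne
      obtain ⟨u, hu⟩ := (hT A hA).1 i
      refine endRing_surjective (hE i) ⟨fun m => u m, ?_⟩ r hr
      exact hu.map' (A i).subtype.toIntLinearMap
        (LinearMap.ker_eq_bot.2 Subtype.val_injective)
    refine main_quotient E j θ hE hs {x | ∃ A ∈ T, ∀ k, x k ∈ A (j k)} ?_ ?_ ?_ b (hprod n j b)
      S t hS hG κ c M a hM ha h1 h2
    · obtain ⟨A, hA⟩ := hne
      exact ⟨A, hA, fun k => zero_mem _⟩
    · intro i v x
      obtain ⟨A, hA, hx⟩ := hcov i x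
      exact ⟨A, hA, h1pt_mem E j A (fun i r x hx => (hT A hA).2.2 i i _ ((hE i).hom r) x hx) i v x hx⟩
    · rintro a ⟨A, hA, ha⟩ s
      refine ⟨A, hA, fun k' => ?_⟩
      rw [Finset.sum_apply]
      refine sum_mem fun k _ => ?_
      by_cases h : k' = k
      · subst h
        rw [Pi.single_eq_same]
        exact ha _
      · rw [Pi.single_eq_of_ne h]
        exact zero_mem _
  · have hm : IsEmpty (Fin m) := by
      refine ⟨fun s => hne ?_⟩
      obtain ⟨A, hA, -⟩ := ha s 1
      exact ⟨A, hA⟩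
    refine ⟨1, one_pos, ?_⟩
    rw [Finset.univ_eq_empty, Finset.sum_empty, smul_zero]
    exact zero_mem _

end Pool.Agent.ZC.AU
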